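import Pool.Agent.H973.Hpam.NoCons
import Pool.Agent.H973.Hpam.Ident
import Pool.Agent.H973.Hpam.LikG

/-!
# The marginal MLE of the hierarchical preferential attachment model is not consistent

This settles Q1 of `MP_7e57c2_pr` in the negative (with `K = 2` labels).

The two explicit parameters used in the proof are
* `π = (1/5, 4/5)`,   `γ = 1000/1001 * (201/200, 1; 1, 801/800)`,
* `π = (9/25, 16/25)`, `γ = 1000/1001 * (361/360, 1; 1, 641/640)`.

Both belong to the balanced family `γ_{ij} = 1 + δ φ_i φ_j` with `∑ π φ = 0`, `∑ π φ² = 1` and
`δ = 1/1001`. For such parameters the likelihood ratio of the observed history with respect to the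
label-blind process (attachment proportional to the degree, loops with weight `1 + δ`) has second
moment at most `1.1`, uniformly in `n` (`second_moment`). Since the reference process is the same
for both parameters, no two sequences of disjoint events can have probabilities tending to one
under the two parameters. Both parameters are identifiable: already the law of the first three
steps determines them up to relabelling and scaling (`ident_thA`, `ident_thB`).

All definitions are in `Pool/Agent/H973/Hpam/Defs.lean`. The file
`Pool/Agent/H973/Hpam/LikG.lean` proves that `G_n` as defined in the problem file (`likG`) equals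
the probability of the observed history (`law`), and that these probabilities add up to one.
-/

namespace Pool.Agent.Results.MP_7e57c2_pr.MLENotConsistent

open Pool.Agent.H973.Hpam Finset Filter Topology

lemma thA_eq : thA = balParam ![1 / 5, 4 / 5] ![2, -1 / 2] (1 / 1001) := by
  unfold thA par2 balParam
  congr 1
  · ext j; fin_cases j <;> norm_num
  · ext i j; fin_cases i <;> fin_cases j <;> norm_num

lemma thB_eq : thB = balParam ![9 / 25, 16 / 25] ![4 / 3, -3 / 4] (1 / 1001) := by
  unfold thB par2 balParam
  congr 1
  · ext j; fin_cases j <;> norm_num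
  · ext i j; fin_cases i <;> fin_cases j <;> norm_num

lemma balA : Bal ![1 / 5, 4 / 5] ![2, -1 / 2] (1 / 1001 : ℝ) where
  p0 := by intro j; fin_cases j <;> norm_num
  p1 := by rw [Fin.sum_univ_two]; norm_num
  m1 := by rw [Fin.sum_univ_two]; norm_num
  m2 := by rw [Fin.sum_univ_two]; norm_num
  bd := by intro j; rw [abs_le]; fin_cases j <;> norm_num
  d0 := by norm_num
  d1 := by norm_num

lemma balB : Bal ![9 / 25, 16 / 25] ![4 / 3, -3 / 4] (1 / 1001 : ℝ) where
  p0 := by intro j; fin_cases j <;> norm_num
  p1 := by rw [Fin.sum_univ_two]; norm_num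
  m1 := by rw [Fin.sum_univ_two]; norm_num
  m2 := by rw [Fin.sum_univ_two]; norm_num
  bd := by intro j; rw [abs_le]; fin_cases j <;> norm_num
  d0 := by norm_num
  d1 := by norm_num

/-- No parameter is close to both orbits. -/
lemma not_near_both (θ : Param 2) (hA : NearOrbit (1 / 20) thA θ) (hB : NearOrbit (1 / 20) thB θ) :
    False := by
  obtain ⟨σ, c, _, h1, _⟩ := hA
  obtain ⟨τ, c', _, h2, _⟩ := hB
  have a := h1 (σ.symm 0)
  have b := h2 (τ.symm 0)
  rw [Equiv.apply_symm_apply] at a b
  have hA2 : ∀ j : Fin 2, thA.pi j = 1 / 5 ∨ thA.pi j = 4 / 5 := by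
    intro j; rw [thA_eq]; fin_cases j
    · left; simp [balParam]
    · right; simp [balParam]
  have hB2 : ∀ j : Fin 2, thB.pi j = 9 / 25 ∨ thB.pi j = 16 / 25 := by
    intro j; rw [thB_eq]; fin_cases j
    · left; simp [balParam]
    · right; simp [balParam]
  have a1 := (abs_lt.mp a).1
  have a2 := (abs_lt.mp a).2
  have b1 := (abs_lt.mp b).1
  have b2 := (abs_lt.mp b).2
  rcases hA2 (σ.symm 0) with hx | hx <;> rcases hB2 (τ.symm 0) with hy | hy <;>
    rw [hx] at a1 a2 <;> rw [hy] at b1 b2 <;> linarith

/-- **The marginal maximum likelihood estimator of the HPAM is not consistent.**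

(1) There is an identifiable parameter pair `θ` (with `K = 2` labels) at which the MLE is not
consistent: for some `ε > 0` the probability, under `θ`, that `G_n` has a maximiser and that all
its maximisers are within `ε` of the orbit of `θ` (under relabelling and scaling of `γ`) does not
tend to one.

(2) More strongly, there are two identifiable parameter pairs such that no sequence of estimators
whatsoever (in particular no choice of maximisers of `G_n`) is consistent, even in probability, at
both of them. -/
theorem result :
    (∃ θ : Param 2, Identifiable θ ∧ ¬ MLEConsistentAt θ) ∧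
      ∃ θ₀ θ₁ : Param 2, Identifiable θ₀ ∧ Identifiable θ₁ ∧
        ∀ T : (n : ℕ) → Hist n → Param 2, ¬ (ConsistentAt T θ₀ ∧ ConsistentAt T θ₁) := by
  constructor
  · by_contra hcon
    push Not at hcon
    have hA := hcon thA ident_thA (1 / 20) (by norm_num)
    have hB := hcon thB ident_thB (1 / 20) (by norm_num)
    rw [thA_eq] at hA
    rw [thB_eq] at hB
    refine not_both balA balB _ _ ?_ hA hB
    intro n
    rw [Set.disjoint_left]
    rintro a ⟨⟨θ, hθ⟩, h1⟩ ⟨_, h2⟩
    have k1 := h1 θ hθ
    have k2 := h2 θ hθ
    rw [← thA_eq] at k1
    rw [← thB_eq] at k2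
    exact not_near_both θ k1 k2
  · refine ⟨thA, thB, ident_thA, ident_thB, ?_⟩
    rintro T ⟨hA, hB⟩
    have hA' := hA (1 / 20) (by norm_num)
    have hB' := hB (1 / 20) (by norm_num)
    rw [thA_eq] at hA'
    rw [thB_eq] at hB'
    refine not_both balA balB _ _ ?_ hA' hB'
    intro n
    rw [Set.disjoint_left]
    intro a k1 k2
    simp only [Set.mem_ofPred_eq] at k1 k2
    rw [← thA_eq] at k1
    rw [← thB_eq] at k2
    exact not_near_both _ k1 k2

end Pool.Agent.Results.MP_7e57c2_pr.MLENotConsistent
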